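import Mathlib

namespace Pool.Agent.H.MP_5c86b6_an

open Finset

noncomputable def aa (n : ℕ) : ℝ :=
  if n = 0 then 1 else if n = 1 then 3 / 5 else if n = 2 then 1 / 5 else 1 / 30
noncomputable def bb (n : ℕ) : ℝ := if n ≤ 2 then 0 else 19 / 20
noncomputable def cc (n : ℕ) : ℝ :=
  if n = 0 then 0 else if n = 1 then 2 / 5 else if n = 2 then 4 / 5 else 1 / 60

noncomputable def p : ℕ → ℝ → ℝ
  | 0, _ => 1
  | 1, x => x
  | n + 2, x => ((x - bb (n + 1)) * p (n + 1) x - cc (n + 1) * p n x) / aa (n + 1)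

theorem aa_pos (n : ℕ) : 0 < aa n := by unfold aa; split_ifs <;> norm_num
theorem bb_nonneg (n : ℕ) : 0 ≤ bb n := by unfold bb; split_ifs <;> norm_num
theorem cc_nonneg (n : ℕ) : 0 ≤ cc n := by unfold cc; split_ifs <;> norm_num
theorem cc_pos (n : ℕ) (hn : 1 ≤ n) : 0 < cc n := by
  unfold cc; split_ifs <;> first | omega | norm_num
theorem abc (n : ℕ) : aa n + bb n + cc n = 1 := by
  unfold aa bb cc; split_ifs <;> first | omega | norm_num

theorem prec (n : ℕ) (x : ℝ) :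
    x * p (n + 1) x = aa (n + 1) * p (n + 2) x + bb (n + 1) * p (n + 1) x + cc (n + 1) * p n x := by
  have := (aa_pos (n + 1)).ne'
  rw [p]; field_simp; ring

theorem p2 (x : ℝ) : p 2 x = (x * x - 2 / 5) * (5 / 3) := by
  simp [p, aa, bb, cc]; ring
theorem p3 (x : ℝ) : p 3 x = (x * p 2 x - 4 / 5 * x) * 5 := by
  show p (1 + 2) x = _
  rw [p]; simp [p, aa, bb, cc]
theorem hr (n : ℕ) (x : ℝ) :
    p (n + 4) x = ((x - 19 / 20) * p (n + 3) x - 1 / 60 * p (n + 2) x) * 30 := by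
  rw [show n + 4 = (n + 2) + 2 from rfl, p]; simp [aa, bb, cc]

def Cone (lo hi : ℕ) (f : ℝ → ℝ) : Prop :=
  ∃ g : ℕ → ℝ, (∀ k, 0 ≤ g k) ∧ ∀ x, f x = ∑ k ∈ Icc lo hi, g k * p k x

theorem Cone.add {lo hi : ℕ} {f f' : ℝ → ℝ} (h : Cone lo hi f) (h' : Cone lo hi f') :
    Cone lo hi fun x => f x + f' x := by
  obtain ⟨g, hg, e⟩ := h
  obtain ⟨g', hg', e'⟩ := h'
  exact ⟨fun k => g k + g' k, fun k => add_nonneg (hg k) (hg' k), fun x => by
    simp only [e, e', add_mul, sum_add_distrib]⟩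

theorem Cone.smul {lo hi : ℕ} {f : ℝ → ℝ} (h : Cone lo hi f) {c : ℝ} (hc : 0 ≤ c) :
    Cone lo hi fun x => c * f x := by
  obtain ⟨g, hg, e⟩ := h
  exact ⟨fun k => c * g k, fun k => mul_nonneg hc (hg k), fun x => by
    simp only [e, mul_sum, mul_assoc]⟩

theorem Cone.single {lo hi : ℕ} (k : ℕ) {c : ℝ} (h1 : lo ≤ k) (h2 : k ≤ hi) (hc : 0 ≤ c) :
    Cone lo hi fun x => c * p k x := by
  refine ⟨fun j => if j = k then c else 0, fun j => by dsimp only; split_ifs <;> simp [hc], fun x => ?_⟩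
  simp [ite_mul, h1, h2]

theorem Cone.mono {lo hi lo' hi' : ℕ} {f : ℝ → ℝ} (h : Cone lo hi f) (h1 : lo' ≤ lo)
    (h2 : hi ≤ hi') : Cone lo' hi' f := by
  obtain ⟨g, hg, e⟩ := h
  refine ⟨fun j => if j ∈ Icc lo hi then g j else 0, fun j => by dsimp only; split_ifs <;> simp [hg],
    fun x => ?_⟩
  simp only [ite_mul, zero_mul]
  rw [← sum_filter, filter_mem_eq_inter, inter_eq_right.mpr (Icc_subset_Icc h1 h2), e]

theorem Cone.congr {lo hi : ℕ} {f f' : ℝ → ℝ} (h : Cone lo hi f) (e : ∀ x, f' x = f x) :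
    Cone lo hi f' := by
  rwa [show f' = f from funext e]

theorem cone5 (s : ℕ) {c0 c1 c2 c3 c4 : ℝ} (h0 : 0 ≤ c0) (h1 : 0 ≤ c1) (h2 : 0 ≤ c2)
    (h3 : 0 ≤ c3) (h4 : 0 ≤ c4) : Cone s (s + 4) fun x => c0 * p s x + c1 * p (s + 1) x
      + c2 * p (s + 2) x + c3 * p (s + 3) x + c4 * p (s + 4) x :=
  ((((Cone.single _ (by omega) (by omega) h0).add (Cone.single _ (by omega) (by omega) h1)).add
    (Cone.single _ (by omega) (by omega) h2)).add (Cone.single _ (by omega) (by omega) h3)).add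
    (Cone.single _ (by omega) (by omega) h4)

theorem cone7 (s : ℕ) {c0 c1 c2 c3 c4 c5 c6 : ℝ} (h0 : 0 ≤ c0) (h1 : 0 ≤ c1) (h2 : 0 ≤ c2)
    (h3 : 0 ≤ c3) (h4 : 0 ≤ c4) (h5 : 0 ≤ c5) (h6 : 0 ≤ c6) :
    Cone s (s + 6) fun x => c0 * p s x + c1 * p (s + 1) x
      + c2 * p (s + 2) x + c3 * p (s + 3) x + c4 * p (s + 4) x + c5 * p (s + 5) x
      + c6 * p (s + 6) x :=
  (((cone5 s h0 h1 h2 h3 h4).mono le_rfl (by omega)).add
    (Cone.single _ (by omega) (by omega) h5)).add (Cone.single _ (by omega) (by omega) h6)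

noncomputable def R (s : ℕ) (x : ℝ) : ℝ :=
  2 / 5 * p (s + 2) x + 1 / 10 * p (s + 3) x + 1 / 600 * p (s + 4) x

noncomputable def W (s : ℕ) (x : ℝ) : ℝ := p 3 x * p (s + 3) x - p 2 x * p (s + 4) x

theorem Wpow (m s : ℕ) (x : ℝ) :
    p (m + 3) x * p (m + s + 3) x = p (m + 2) x * p (m + s + 4) x + (1 / 2) ^ m * W s x := by
  induction m with
  | zero => simp [W]
  | succ m ih =>
    have e1 : m + 1 + s + 3 = m + s + 1 + 3 := by ring
    have e2 : m + 1 + s + 4 = m + s + 1 + 4 := by ring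
    rw [e1, e2, hr (m + s + 1), show m + 1 + 3 = m + 4 from rfl, hr m, pow_succ]
    have e3 : p (m + s + 1 + 2) x = p (m + s + 3) x := rfl
    have e4 : p (m + s + 1 + 3) x = p (m + s + 4) x := rfl
    have e5 : p (m + 1 + 2) x = p (m + 3) x := rfl
    rw [e3, e4, e5]
    linear_combination (1 / 2) * ih

theorem Wgen (t : ℕ) (x : ℝ) : W (t + 2) x = 1 / 25920 * p (t + 2) x + 19 / 2880 * p (t + 3) x
    + 2191 / 8640 * p (t + 4) x + 437 / 2880 * p (t + 5) x - 53 / 160 * p (t + 6) x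
    - 19 / 240 * p (t + 7) x - 1 / 648 * p (t + 8) x := by
  have h4 := hr t x
  have h5 : p (t + 5) x = ((x - 19 / 20) * p (t + 4) x - 1 / 60 * p (t + 3) x) * 30 := hr (t + 1) x
  have h6 : p (t + 6) x = ((x - 19 / 20) * p (t + 5) x - 1 / 60 * p (t + 4) x) * 30 := hr (t + 2) x
  have h7 : p (t + 7) x = ((x - 19 / 20) * p (t + 6) x - 1 / 60 * p (t + 5) x) * 30 := hr (t + 3) x
  have h8 : p (t + 8) x = ((x - 19 / 20) * p (t + 7) x - 1 / 60 * p (t + 6) x) * 30 := hr (t + 4) x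
  show p 3 x * p (t + 5) x - p 2 x * p (t + 6) x = _
  rw [h8, h7, h6, h5, h4, p3, p2]; ring

theorem P2gen (t : ℕ) (x : ℝ) : p 2 x * p (t + 4) x = 1 / 2160 * p (t + 2) x
    + 19 / 360 * p (t + 3) x + 1813 / 2160 * p (t + 4) x + 19 / 180 * p (t + 5) x
    + 1 / 540 * p (t + 6) x := by
  have h4 := hr t x
  have h5 : p (t + 5) x = ((x - 19 / 20) * p (t + 4) x - 1 / 60 * p (t + 3) x) * 30 := hr (t + 1) x
  have h6 : p (t + 6) x = ((x - 19 / 20) * p (t + 5) x - 1 / 60 * p (t + 4) x) * 30 := hr (t + 2) x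
  rw [h6, h5, h4, p2]; ring

theorem step (t : ℕ) :
    Cone (t + 2) (t + 2 + 6) fun x => R (t + 4) x + W (t + 2) x - 1 / 2 * R (t + 2) x :=
  (cone7 (t + 2) (c0 := 1 / 25920) (c1 := 19 / 2880) (c2 := 2191 / 8640 - 1 / 5)
    (c3 := 437 / 2880 - 1 / 20) (c4 := 2 / 5 - 53 / 160 - 1 / 1200) (c5 := 1 / 10 - 19 / 240)
    (c6 := 1 / 600 - 1 / 648) (by norm_num) (by norm_num) (by norm_num) (by norm_num)
    (by norm_num) (by norm_num) (by norm_num)).congr fun x => by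
      rw [Wgen]; simp only [R, add_assoc, Nat.reduceAdd]; ring

theorem RW (s : ℕ) : Cone s (s + 6) fun x => R (s + 2) x + W s x := by
  have low : ∀ x, p 4 x = ((x - 19 / 20) * p 3 x - 1 / 60 * p 2 x) * 30 ∧
      p 5 x = ((x - 19 / 20) * p 4 x - 1 / 60 * p 3 x) * 30 ∧
      p 6 x = ((x - 19 / 20) * p 5 x - 1 / 60 * p 4 x) * 30 ∧
      p 7 x = ((x - 19 / 20) * p 6 x - 1 / 60 * p 5 x) * 30 ∧ p 0 x = 1 ∧ p 1 x = x :=
    fun x => ⟨hr 0 x, hr 1 x, hr 2 x, hr 3 x, rfl, rfl⟩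
  match s with
  | 0 =>
    exact (cone7 0 (c0 := 2 / 45) (c1 := 19 / 180) (c2 := 1811 / 25920)
      (c3 := 551 / 2880) (c4 := 2 / 5 - 4283 / 12960) (c5 := 1 / 10 - 19 / 240)
      (c6 := 1 / 600 - 1 / 648) (by norm_num) (by norm_num) (by norm_num) (by norm_num)
      (by norm_num) (by norm_num) (by norm_num)).congr fun x => by
        obtain ⟨h4, h5, h6, h7, h0, h1⟩ := low x
        simp only [R, W, Nat.reduceAdd]
        rw [h6, h5, h4, p3, p2, h0, h1]; ring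
  | 1 =>
    exact (cone7 1 (c0 := 1 / 540) (c1 := 19 / 4320) (c2 := 6583 / 25920)
      (c3 := 437 / 2880) (c4 := 2 / 5 - 53 / 160) (c5 := 1 / 10 - 19 / 240)
      (c6 := 1 / 600 - 1 / 648) (by norm_num) (by norm_num) (by norm_num) (by norm_num)
      (by norm_num) (by norm_num) (by norm_num)).congr fun x => by
        obtain ⟨h4, h5, h6, h7, h0, h1⟩ := low x
        simp only [R, W, Nat.reduceAdd]
        rw [h7, h6, h5, h4, p3, p2, h1]; ring
  | t + 2 =>
    exact (cone7 (t + 2) (c0 := 1 / 25920) (c1 := 19 / 2880) (c2 := 2191 / 8640)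
      (c3 := 437 / 2880) (c4 := 2 / 5 - 53 / 160) (c5 := 1 / 10 - 19 / 240)
      (c6 := 1 / 600 - 1 / 648) (by norm_num) (by norm_num) (by norm_num) (by norm_num)
      (by norm_num) (by norm_num) (by norm_num)).congr fun x => by
        rw [Wgen]; simp only [R, add_assoc, Nat.reduceAdd]; ring

theorem HH (m : ℕ) : ∀ t, Cone (t + 2) (2 * m + t + 6) fun x =>
    p (m + 2) x * p (m + t + 4) x - (1 / 2) ^ m * R (t + 2) x := by
  induction m with
  | zero =>
    intro t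
    refine ((cone5 (t + 2) (c0 := 1 / 2160) (c1 := 19 / 360) (c2 := 1813 / 2160 - 2 / 5)
      (c3 := 19 / 180 - 1 / 10) (c4 := 1 / 540 - 1 / 600) (by norm_num) (by norm_num)
      (by norm_num) (by norm_num) (by norm_num)).mono le_rfl (by omega)).congr fun x => ?_
    simp only [zero_add, P2gen, R, add_assoc, Nat.reduceAdd]; ring
  | succ m ih =>
    intro t
    refine (((ih (t + 2)).mono (lo' := t + 2) (hi' := 2 * (m + 1) + t + 6) (by omega)
      (by omega)).add (((step t).mono le_rfl (by omega)).smul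
        (c := (1 / 2) ^ m) (by positivity))).congr fun x => ?_
    have h := Wpow m (t + 2) x
    have e1 : m + 1 + t + 4 = m + (t + 2) + 3 := by ring
    rw [e1, show m + 1 + 2 = m + 3 from rfl, h, pow_succ]
    ring

theorem cone_le (m s : ℕ) : Cone s (2 * m + s) fun x => p m x * p (m + s) x := by
  have low : ∀ x, p 4 x = ((x - 19 / 20) * p 3 x - 1 / 60 * p 2 x) * 30 ∧
      p 5 x = ((x - 19 / 20) * p 4 x - 1 / 60 * p 3 x) * 30 ∧ p 0 x = 1 ∧ p 1 x = x :=
    fun x => ⟨hr 0 x, hr 1 x, rfl, rfl⟩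
  match m, s with
  | 0, s => exact (Cone.single s le_rfl (by omega) zero_le_one).congr fun x => by simp [p]
  | 1, s =>
    refine (((Cone.single (s + 2) (by omega) (by omega) (aa_pos (s + 1)).le).add
      (Cone.single (s + 1) (by omega) (by omega) (bb_nonneg (s + 1)))).add
      (Cone.single s (by omega) (by omega) (cc_nonneg (s + 1)))).congr fun x => ?_
    rw [add_comm 1 s, ← prec]; rfl
  | 2, 0 =>
    exact (cone5 0 (c0 := 8 / 15) (c1 := 0) (c2 := 5 / 36) (c3 := 19 / 60) (c4 := 1 / 90)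
      (by norm_num) (by norm_num) (by norm_num) (by norm_num) (by norm_num)).congr fun x => by
        obtain ⟨h4, h5, h0, h1⟩ := low x
        simp only [Nat.reduceAdd]
        rw [h4, p3, p2, h0, h1]; ring
  | 2, 1 =>
    exact (cone5 1 (c0 := 1 / 45) (c1 := 19 / 720) (c2 := 1823 / 2160) (c3 := 19 / 180)
      (c4 := 1 / 540) (by norm_num) (by norm_num) (by norm_num) (by norm_num)
      (by norm_num)).congr fun x => by
        obtain ⟨h4, h5, h0, h1⟩ := low x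
        simp only [Nat.reduceAdd]
        rw [h5, h4, p3, p2, h1]; ring
  | 2, t + 2 =>
    refine ((cone5 (t + 2) (c0 := 1 / 2160) (c1 := 19 / 360) (c2 := 1813 / 2160)
      (c3 := 19 / 180) (c4 := 1 / 540) (by norm_num) (by norm_num)
      (by norm_num) (by norm_num) (by norm_num)).mono le_rfl (by omega)).congr fun x => ?_
    rw [show 2 + (t + 2) = t + 4 by ring, P2gen]
  | m + 3, s =>
    refine (((HH m s).mono (lo' := s) (hi' := 2 * (m + 3) + s) (by omega) (by omega)).add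
      (((RW s).mono le_rfl (by omega)).smul (c := (1 / 2) ^ m) (by positivity))).congr
      fun x => ?_
    rw [show m + 3 + s = m + s + 3 by ring, Wpow]
    ring

theorem main (m n : ℕ) : ∃ g : ℕ → ℝ, (∀ k, 0 ≤ g k) ∧
    ∀ x, p m x * p n x = ∑ k ∈ Icc (Nat.dist m n) (m + n), g k * p k x := by
  rcases le_total m n with h | h
  · obtain ⟨s, rfl⟩ := Nat.exists_eq_add_of_le h
    rw [Nat.dist_eq_sub_of_le h, Nat.add_sub_cancel_left, show m + (m + s) = 2 * m + s by ring]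
    exact cone_le m s
  · obtain ⟨s, rfl⟩ := Nat.exists_eq_add_of_le h
    rw [Nat.dist_eq_sub_of_le_right h, Nat.add_sub_cancel_left,
      show n + s + n = 2 * n + s by ring]
    exact (cone_le n s).congr fun x => mul_comm _ _

end Pool.Agent.H.MP_5c86b6_an
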